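import Mathlib

open Cardinal Set

universe u

namespace Pool.Agent.MP_88803c_co

/-- `P` contains no antichain of cardinality `κ`. -/
def NoAntichain (κ : Cardinal.{u}) (P : Type u) [PartialOrder P] : Prop :=
  ∀ s : Set P, IsAntichain (· ≤ ·) s → #s ≠ κ

end Pool.Agent.MP_88803c_co
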