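import Mathlib
import Pool.Agent.MP_88803c_co.Defs

open Cardinal Set

universe u

namespace Pool.Agent.MP_88803c_co

/-! ### Erdős–Rado for pairs -/

section ER

variable {Lam C : Type u} {κ : Cardinal.{u}}

/-- choice from a set -/
noncomputable def ch [Nonempty Lam] (A : Set Lam) : Lam :=
  open Classical in if h : A.Nonempty then h.some else Classical.arbitrary Lam

lemma ch_mem [Nonempty Lam] {A : Set Lam} (h : A.Nonempty) : ch A ∈ A := by
  unfold ch
  rw [dif_pos h]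
  exact h.some_mem

variable {ι : Type u} [LinearOrder ι] [WellFoundedLT ι]

/-- the ramification sequence towards `α` -/
noncomputable def bseq [Nonempty Lam] (f : Lam → Lam → C) (α : Lam) : ι → Lam :=
  WellFounded.fix (r := (· < ·)) wellFounded_lt (fun i rec =>
    ch {a | ∀ j (hj : j < i), a ≠ rec j hj ∧ f (rec j hj) a = f (rec j hj) α})

lemma bseq_eq [Nonempty Lam] (f : Lam → Lam → C) (α : Lam) (i : ι) :
    bseq f α i = ch {a | ∀ j, j < i → a ≠ bseq f α j ∧ f (bseq f α j) a = f (bseq f α j) α} := by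
  unfold bseq
  rw [WellFounded.fix_eq]

lemma bseq_congr [Nonempty Lam] (f : Lam → Lam → C) (α β : Lam) (i : ι)
    (h : ∀ j, j < i → f (bseq f α j) α = f (bseq f β j) β) :
    bseq f α i = bseq f β i := by
  induction i using WellFoundedLT.induction with
  | ind i ih =>
    have key : ∀ j, j < i → bseq f α j = bseq f β j := fun j hj =>
      ih j hj (fun l hl => h l (hl.trans hj))
    rw [bseq_eq, bseq_eq]
    congr 1
    ext a
    simp only [mem_ofPred_eq]
    constructor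
    · intro ha j hj
      have h1 := ha j hj
      rw [h j hj, key j hj] at h1
      exact h1
    · intro ha j hj
      have h1 := ha j hj
      rw [← h j hj, ← key j hj] at h1
      exact h1

end ER

section ER2

variable {Lam C : Type u} {κ : Cardinal.{u}}

lemma mk_Iio_ord_lt (c : Cardinal.{u}) (i : c.ord.ToType) : #(Iio i) < c := by
  simpa using mk_Iio_lt i

/-- End-homogeneous sequences. -/
theorem end_homogeneous (hκ : ℵ₀ ≤ κ) (hL : 2 ^ κ < #Lam) (hC : #C ≤ 2 ^ κ) (f : Lam → Lam → C) :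
    ∃ (b : (Order.succ κ).ord.ToType → Lam) (g : (Order.succ κ).ord.ToType → C),
      Function.Injective b ∧ ∀ i j, i < j → f (b i) (b j) = g i := by
  have hne : Nonempty Lam := by
    rw [← mk_ne_zero_iff]
    intro h
    rw [h] at hL
    exact (not_lt_bot hL)
  let ι := (Order.succ κ).ord.ToType
  by_cases hcase : ∃ α, ∀ i : ι, bseq f α i ≠ α
  · obtain ⟨α, hα⟩ := hcase
    have hmem : ∀ i : ι, bseq f α i ∈
        {a | ∀ j, j < i → a ≠ bseq f α j ∧ f (bseq f α j) a = f (bseq f α j) α} := by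
      intro i
      have := ch_mem (A := {a | ∀ j, j < i → a ≠ bseq f α j ∧ f (bseq f α j) a = f (bseq f α j) α})
        ⟨α, fun j _ => ⟨(hα j).symm, rfl⟩⟩
      rw [bseq_eq]
      exact this
    refine ⟨bseq f α, fun i => f (bseq f α i) α, ?_, ?_⟩
    · intro i j hij
      rcases lt_trichotomy i j with h | h | h
      · exact absurd hij.symm (hmem j i h).1
      · exact h
      · exact absurd hij (hmem i j h).1
    · intro i j hij
      exact (hmem j i hij).2
  · exfalso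
    push Not at hcase
    choose idx hidx using hcase
    -- an injection
    let code : Lam → Σ i : ι, (Iio i → C) := fun α => ⟨idx α, fun j => f (bseq f α j.1) α⟩
    have hinj : Function.Injective code := by
      intro α β hαβ
      have h1 : idx α = idx β := congrArg Sigma.fst hαβ
      have h2 : ∀ j, j < idx α → f (bseq f α j) α = f (bseq f β j) β := by
        intro j hj
        have hj' : j < idx β := h1 ▸ hj
        have : ∀ (s t : Σ i : ι, (Iio i → C)) (_ : s = t) (hs : j < s.1) (ht : j < t.1),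
            s.2 ⟨j, hs⟩ = t.2 ⟨j, ht⟩ := by
          rintro s t rfl hs ht
          rfl
        exact this _ _ hαβ hj hj'
      have h3 := bseq_congr f α β (idx α) h2
      rw [hidx α] at h3
      rw [h3, h1, hidx β]
    have hcard : #(Σ i : ι, (Iio i → C)) ≤ 2 ^ κ := by
      rw [mk_sigma]
      have hle : ∀ i : ι, #(Iio i → C) ≤ 2 ^ κ := by
        intro i
        have h1 : #(Iio i) ≤ κ := Order.lt_succ_iff.1 (mk_Iio_ord_lt _ i)
        calc #(Iio i → C) = #C ^ #(Iio i) := by simp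
          _ ≤ (2 ^ κ) ^ #(Iio i) := Cardinal.power_le_power_right hC
          _ ≤ (2 ^ κ) ^ κ := Cardinal.power_le_power_left
              (ne_of_gt ((aleph0_pos.trans_le hκ).trans (cantor κ))) h1
          _ = 2 ^ κ := by rw [← power_mul, mul_eq_self hκ]
      refine (sum_le_sum _ _ hle).trans ?_
      rw [sum_const, lift_id, lift_id]
      have h1 : #ι ≤ 2 ^ κ := by
        rw [mk_ord_toType]
        exact Order.succ_le_of_lt (cantor κ)
      calc #ι * 2 ^ κ ≤ 2 ^ κ * 2 ^ κ := mul_le_mul' h1 le_rfl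
        _ = 2 ^ κ := mul_eq_self (hκ.trans (cantor κ).le)
    exact absurd ((mk_le_of_injective hinj).trans hcard) (not_le.2 hL)

/-- Erdős–Rado: `(2^κ)^+ → (κ^+)²_κ`. -/
theorem erdos_rado (hκ : ℵ₀ ≤ κ) (hL : 2 ^ κ < #Lam) (hC : #C ≤ κ) (f : Lam → Lam → C) :
    ∃ (b : (Order.succ κ).ord.ToType → Lam) (c : C) (S : Set (Order.succ κ).ord.ToType),
      Function.Injective b ∧ #S = Order.succ κ ∧ ∀ i ∈ S, ∀ j ∈ S, i < j → f (b i) (b j) = c := by
  obtain ⟨b, g, hb, hg⟩ := end_homogeneous hκ hL (hC.trans (cantor κ).le) f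
  obtain ⟨c, hc⟩ := infinite_pigeonhole g (by rw [mk_ord_toType]; exact hκ.trans (Order.le_succ κ))
    (by
      rw [mk_ord_toType, (isRegular_succ hκ).cof_ord]
      exact lt_of_le_of_lt hC (Order.lt_succ κ))
  refine ⟨b, c, g ⁻¹' {c}, hb, by rw [hc, mk_ord_toType], ?_⟩
  intro i hi j _ hij
  rw [hg i j hij]
  exact hi

end ER2

/-! ### Covering by bounded pieces -/

section Cover

variable {P : Type u} [PartialOrder P] {μ θ κ : Cardinal.{u}}

/-- elements of `J` incomparable to everything in `Y` -/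
def inc (J Y : Set P) : Set P := {x ∈ J | ∀ y ∈ Y, ¬ x ≤ y ∧ ¬ y ≤ x}

/-- every subset of `X` of size at most `κ` has an upper bound in `J` -/
def BddIn (κ : Cardinal.{u}) (J X : Set P) : Prop :=
  ∀ S ⊆ X, #S ≤ κ → ∃ u ∈ J, ∀ s ∈ S, s ≤ u

/-- enumerations of unbounded families -/
lemma exists_enum {K : Type u} (hK : #K = κ) (J : Set P) (hJ : J.Nonempty) :
    ∃ E : Set P → K → P, ∀ Y, ¬ BddIn κ J (inc J Y) →
      (∀ k, E Y k ∈ inc J Y) ∧ ∀ p ∈ J, ∃ k, ¬ E Y k ≤ p := by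
  have : ∀ Y : Set P, ∃ e : K → P, ¬ BddIn κ J (inc J Y) →
      (∀ k, e k ∈ inc J Y) ∧ ∀ p ∈ J, ∃ k, ¬ e k ≤ p := by
    intro Y
    by_cases h : BddIn κ J (inc J Y)
    · obtain ⟨z, hz⟩ := hJ
      exact ⟨fun _ => z, fun h' => absurd h h'⟩
    · have h' := h
      unfold BddIn at h'
      push Not at h'
      obtain ⟨S, hS, hSκ, hu⟩ := h'
      have hSne : Nonempty S := by
        obtain ⟨z, hz⟩ := hJ
        obtain ⟨s, hs, -⟩ := hu z hz
        exact ⟨⟨s, hs⟩⟩
      have hle : #S ≤ #K := by rwa [hK]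
      obtain ⟨g⟩ := hle
      refine ⟨fun k => ((Function.invFun g k : S) : P), fun _ => ⟨fun k => hS (Subtype.mem _), ?_⟩⟩
      intro p hp
      obtain ⟨s, hs, hsp⟩ := hu p hp
      refine ⟨g ⟨s, hs⟩, ?_⟩
      have hinv : Function.invFun g (g ⟨s, hs⟩) = ⟨s, hs⟩ :=
        Function.leftInverse_invFun g.injective ⟨s, hs⟩
      simp only [hinv]
      exact hsp
  choose E hE using this
  exact ⟨E, hE⟩

/-- The colouring lemma: a set `J` without antichains of size `μ` can be coloured by at most `κ`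
colours so that every colour class is `κ`-bounded in `J`. -/
theorem exists_colouring (hμ : ℵ₀ ≤ μ) (hμκ : μ ≤ κ) (hθ : θ ≠ 0) (hκ : θ ^< μ ≤ κ) (J : Set P)
    (hJne : J.Nonempty) (hJ : ∀ s ⊆ J, IsAntichain (· ≤ ·) s → #s ≠ μ) :
    ∃ (D : Type u) (c : P → D), #D ≤ κ ∧ ∀ z, BddIn θ J {p ∈ J | c p = z} := by
  classical
  have hκ0 : ℵ₀ ≤ κ := hμ.trans hμκ
  obtain ⟨K, hKκ⟩ : ∃ K : Type u, #K = θ := ⟨_, mk_out θ⟩
  obtain ⟨E, hE⟩ := exists_enum hKκ J hJne
  have hK : Nonempty K := by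
    rw [← mk_ne_zero_iff, hKκ]
    exact hθ
  let ι := μ.ord.ToType
  -- the next index
  let kk : P → Set P → K := fun p Y =>
    if h : ∃ k, ¬ E Y k ≤ p then h.choose else Classical.arbitrary K
  have hkk : ∀ p Y, (∃ k, ¬ E Y k ≤ p) → ¬ E Y (kk p Y) ≤ p := by
    intro p Y h
    simp only [kk, dif_pos h]
    exact h.choose_spec
  -- the sequence
  let y : P → ι → P := fun p => WellFounded.fix (r := (· < ·)) wellFounded_lt
    (fun i rec => E {z | ∃ j, ∃ hj : j < i, z = rec j hj}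
      (kk p {z | ∃ j, ∃ hj : j < i, z = rec j hj}))
  let Y : P → ι → Set P := fun p i => {z | ∃ j, j < i ∧ z = y p j}
  have hy : ∀ p i, y p i = E (Y p i) (kk p (Y p i)) := by
    intro p i
    simp only [y, Y]
    rw [WellFounded.fix_eq]
    simp only [exists_prop]
  let kc : P → ι → K := fun p i => kk p (Y p i)
  -- determinacy
  have hdet : ∀ p q i, (∀ j, j < i → kc p j = kc q j) → Y p i = Y q i := by
    intro p q i
    induction i using WellFoundedLT.induction with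
    | ind i ih =>
      intro h
      have key : ∀ j, j < i → y p j = y q j := by
        intro j hj
        have h1 : Y p j = Y q j := ih j hj (fun l hl => h l (hl.trans hj))
        have h2 : kk p (Y p j) = kk q (Y q j) := h j hj
        rw [hy, hy, h2, h1]
      ext z
      constructor
      · rintro ⟨j, hj, rfl⟩
        exact ⟨j, hj, key j hj⟩
      · rintro ⟨j, hj, rfl⟩
        exact ⟨j, hj, (key j hj).symm⟩
  -- the process stops
  have hstop : ∀ p ∈ J, ∃ i, BddIn θ J (inc J (Y p i)) ∨ p ≤ y p i := by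
    intro p hp
    by_contra hcon
    push Not at hcon
    have h1 : ∀ i, y p i ∈ inc J (Y p i) := by
      intro i
      rw [hy]
      exact (hE _ (hcon i).1).1 _
    have hlt : ∀ i j, i < j → ¬ y p i ≤ y p j ∧ ¬ y p j ≤ y p i := by
      intro i j hij
      have := (h1 j).2 (y p i) ⟨i, hij, rfl⟩
      exact ⟨this.2, this.1⟩
    have hinj : Function.Injective (y p) := by
      intro i j hij
      rcases lt_trichotomy i j with h | h | h
      · exact absurd hij.le (hlt i j h).1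
      · exact h
      · exact absurd hij.le (hlt j i h).2
    apply hJ (range (y p))
    · rintro _ ⟨i, rfl⟩
      exact (h1 i).1
    · rintro _ ⟨i, rfl⟩ _ ⟨j, rfl⟩ hne
      rcases lt_trichotomy i j with h | h | h
      · exact (hlt i j h).1
      · exact absurd (by rw [h]) hne
      · exact (hlt j i h).2
    · rw [mk_range_eq _ hinj, mk_ord_toType]
  -- index: the least stopping stage
  have hwf : WellFounded ((· < ·) : ι → ι → Prop) := wellFounded_lt
  have hi0 : Nonempty ι := by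
    obtain ⟨z, hz⟩ := hJne
    obtain ⟨i, -⟩ := hstop z hz
    exact ⟨i⟩
  let idx : P → ι := fun p =>
    if h : ∃ i, BddIn θ J (inc J (Y p i)) ∨ p ≤ y p i then hwf.min _ h else Classical.arbitrary ι
  have hidx1 : ∀ p ∈ J, BddIn θ J (inc J (Y p (idx p))) ∨ p ≤ y p (idx p) := by
    intro p hp
    have h := hstop p hp
    simp only [idx, dif_pos h]
    exact hwf.min_mem {i | BddIn θ J (inc J (Y p i)) ∨ p ≤ y p i} h
  have hidx2 : ∀ p ∈ J, ∀ j, j < idx p → ¬ (BddIn θ J (inc J (Y p j)) ∨ p ≤ y p j) := by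
    intro p hp j hj hcon
    have h := hstop p hp
    simp only [idx, dif_pos h] at hj
    exact hwf.not_lt_min {i | BddIn θ J (inc J (Y p i)) ∨ p ≤ y p i} hcon hj
  refine ⟨Σ i : ι, (Iic i → K), fun p => ⟨idx p, fun j => kc p j.1⟩, ?_, ?_⟩
  · -- cardinality
    rw [mk_sigma]
    have hle : ∀ i : ι, #(Iic i → K) ≤ κ := by
      intro i
      have h1 : #(Iic i) < μ := by
        have h2 : Iic i = insert i (Iio i) := by
          ext x
          simp only [mem_Iic, mem_insert_iff, mem_Iio]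
          exact le_iff_eq_or_lt
        rw [h2]
        refine lt_of_le_of_lt (mk_insert_le) ?_
        exact add_lt_of_lt hμ (mk_Iio_ord_lt μ i) (one_lt_aleph0.trans_le hμ)
      calc #(Iic i → K) = #K ^ #(Iic i) := by simp
        _ = θ ^ #(Iic i) := by rw [hKκ]
        _ ≤ θ ^< μ := le_powerlt θ h1
        _ ≤ κ := hκ
    refine (sum_le_sum _ _ hle).trans ?_
    rw [sum_const, lift_id, lift_id]
    have h1 : #ι ≤ κ := by
      rw [mk_ord_toType]
      exact hμκ
    calc #ι * κ ≤ κ * κ := mul_le_mul' h1 le_rfl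
      _ = κ := mul_eq_self hκ0
  · -- boundedness
    rintro ⟨i, g⟩ S hS hSκ
    rcases S.eq_empty_or_nonempty with rfl | ⟨p₀, hp₀⟩
    · obtain ⟨z, hz⟩ := hJne
      exact ⟨z, hz, by simp⟩
    have hcode : ∀ p ∈ S, idx p = i ∧ ∀ j (hj : j ≤ i), kc p j = g ⟨j, hj⟩ := by
      intro p hp
      have h := (hS hp).2
      have h1 : idx p = i := congrArg Sigma.fst h
      refine ⟨h1, ?_⟩
      intro j hj
      have : ∀ (s t : Σ i : ι, (Iic i → K)) (_ : s = t) (hs : j ≤ s.1) (ht : j ≤ t.1),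
          s.2 ⟨j, hs⟩ = t.2 ⟨j, ht⟩ := by
        rintro s t rfl hs ht
        rfl
      exact this _ _ h (by simpa [h1] using hj) hj
    have hYeq : ∀ p ∈ S, Y p i = Y p₀ i := by
      intro p hp
      apply hdet
      intro j hj
      rw [(hcode p hp).2 j hj.le, (hcode p₀ hp₀).2 j hj.le]
    have hyeq : ∀ p ∈ S, y p i = y p₀ i := by
      intro p hp
      have h2 : kk p (Y p i) = kk p₀ (Y p₀ i) := by
        have := (hcode p hp).2 i le_rfl
        rw [← (hcode p₀ hp₀).2 i le_rfl] at this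
        exact this
      rw [hy, hy, h2, hYeq p hp]
    by_cases hB : BddIn θ J (inc J (Y p₀ i))
    · apply hB S _ hSκ
      intro p hp
      refine ⟨(hS hp).1, ?_⟩
      rw [← hYeq p hp]
      rintro _ ⟨j, hj, rfl⟩
      have hj' : j < idx p := by rw [(hcode p hp).1]; exact hj
      have h3 := hidx2 p (hS hp).1 j hj'
      push Not at h3
      refine ⟨h3.2, ?_⟩
      rw [hy]
      exact hkk p _ ((hE _ h3.1).2 p (hS hp).1)
    · refine ⟨y p₀ i, ?_, ?_⟩
      · rw [hy]
        exact ((hE _ hB).1 _).1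
      · intro p hp
        have h3 := hidx1 p (hS hp).1
        rw [(hcode p hp).1, hYeq p hp, hyeq p hp] at h3
        exact h3.resolve_left hB

end Cover

/-- a colouring into a fixed type -/
theorem exists_colouring' {P : Type u} [PartialOrder P] {μ θ κ : Cardinal.{u}}
    (hμ : ℵ₀ ≤ μ) (hμκ : μ ≤ κ) (hθ : θ ≠ 0) (hκ : θ ^< μ ≤ κ)
    (hP : NoAntichain μ P) {K : Type u} (hK : #K = κ) (J : Set P) :
    ∃ (c : P → K), J.Nonempty → ∀ z, BddIn θ J {p ∈ J | c p = z} := by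
  have hKne : Nonempty K := by
    rw [← mk_ne_zero_iff, hK]
    exact ne_of_gt (aleph0_pos.trans_le (hμ.trans hμκ))
  by_cases hJ : J.Nonempty
  · obtain ⟨D, c, hD, hc⟩ := exists_colouring hμ hμκ hθ hκ J hJ (fun s _ hs => hP s hs)
    have hD' : #D ≤ #K := by rwa [hK]
    obtain ⟨g⟩ := hD'
    refine ⟨fun p => g (c p), fun _ => ?_⟩
    intro z
    by_cases hz : ∃ w, g w = z
    · obtain ⟨w, rfl⟩ := hz
      intro S hS hSκ
      exact hc w S (fun s hs => ⟨(hS hs).1, g.injective (hS hs).2⟩) hSκ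
    · intro S hS _
      obtain ⟨u, hu⟩ := hJ
      exact ⟨u, hu, fun s hs => absurd ⟨_, (hS hs).2⟩ hz⟩
  · exact ⟨fun _ => Classical.arbitrary K, fun h => absurd h hJ⟩

/-- elements of differences of members of an antichain of ideals -/
lemma exists_diff {P : Type u} [PartialOrder P] {A : Set (Order.Ideal P)}
    (hA : IsAntichain (· ≤ ·) A) :
    ∃ x : A → A → P, ∀ J J' : A, J ≠ J' → x J J' ∈ J.1 ∧ x J J' ∉ J'.1 := by
  have hdiff : ∀ J J' : A, ∃ x : P, J ≠ J' → x ∈ J.1 ∧ x ∉ J'.1 := by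
    intro J J'
    by_cases h : J = J'
    · obtain ⟨u, -⟩ := J.1.nonempty
      exact ⟨u, fun h' => absurd h h'⟩
    · have h1 : ¬ J.1 ≤ J'.1 := hA J.2 J'.2 (fun h' => h (Subtype.ext h'))
      obtain ⟨x, hx, hx'⟩ := Set.not_subset.1 h1
      exact ⟨x, fun _ => ⟨hx, hx'⟩⟩
  choose x hx using hdiff
  exact ⟨x, hx⟩

/-- from separating elements to an antichain -/
lemma antichain_of_sep {P : Type u} [PartialOrder P] {μ : Cardinal.{u}} (hP : NoAntichain μ P)
    {T : Type u} (hT : #T = μ) (b : T → Order.Ideal P)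
    (h : ∀ i : T, ∃ w ∈ b i, ∀ j : T, j ≠ i → w ∉ b j) : False := by
  choose w hw hw' using h
  have hwle : ∀ i j : T, i ≠ j → ¬ w i ≤ w j := by
    intro i j hij hle
    exact hw' i j hij.symm ((b j).lower hle (hw j))
  have hwinj : Function.Injective w := by
    intro i j hij
    by_contra hne
    exact hwle i j hne hij.le
  apply hP (range w)
  · rintro _ ⟨i, rfl⟩ _ ⟨j, rfl⟩ hne
    exact hwle i j (fun h => hne (by rw [h]))
  · rw [mk_range_eq _ hwinj, hT]

/-- Main theorem, first form. -/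
theorem main1 {μ θ κ : Cardinal.{u}} (hμ : ℵ₀ ≤ μ) (hμθ : μ ≤ θ) (hκ : θ ^< μ ≤ κ)
    (P : Type u) [PartialOrder P] (hP : NoAntichain μ P) :
    NoAntichain (Order.succ (2 ^ κ)) (Order.Ideal P) := by
  intro A hA hcard
  have hθ : θ ≠ 0 := ne_of_gt (aleph0_pos.trans_le (hμ.trans hμθ))
  have hθκ : θ ≤ κ := by
    have := le_powerlt θ (one_lt_aleph0.trans_le hμ)
    rw [power_one] at this
    exact this.trans hκ
  have hμκ : μ ≤ κ := hμθ.trans hθκ
  have hκ0 : ℵ₀ ≤ κ := hμ.trans hμκ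
  obtain ⟨K, hKκ⟩ : ∃ K : Type u, #K = κ := ⟨_, mk_out κ⟩
  -- colourings of the members
  have hcol : ∀ J : A, ∃ c : P → K, (J.1 : Set P).Nonempty →
      ∀ z, BddIn θ (J.1 : Set P) {p ∈ (J.1 : Set P) | c p = z} := fun J =>
    exists_colouring' hμ hμκ hθ hκ hP hKκ (J.1 : Set P)
  choose c hc using hcol
  obtain ⟨x, hx⟩ := exists_diff hA
  -- Erdős–Rado
  obtain ⟨b, z, S, hb, hS, hhom⟩ := erdos_rado (Lam := A) (C := K × K) hκ0
    (by rw [hcard]; exact Order.lt_succ _)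
    (by rw [mk_prod, lift_id, hKκ, mul_eq_self hκ0])
    (fun J J' => (c J (x J J'), c J' (x J' J)))
  obtain ⟨T, hTS, hT⟩ := Cardinal.le_mk_iff_exists_subset.1
    (show μ ≤ #S by rw [hS]; exact hμκ.trans (Order.le_succ κ))
  -- the antichain
  refine antichain_of_sep hP hT (fun i => (b i.1).1) ?_
  intro i
  have h1 : ∃ u ∈ ((b i.1).1 : Set P), ∀ s ∈ (fun j : T => x (b i.1) (b j.1)) '' {j : T | i < j},
      s ≤ u := by
    apply hc (b i.1) (b i.1).1.nonempty z.1
    · rintro _ ⟨j, hj, rfl⟩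
      have hne : b i.1 ≠ b j.1 := fun h => (ne_of_lt hj) (Subtype.ext (hb h))
      refine ⟨(hx _ _ hne).1, ?_⟩
      have := hhom i.1 (hTS i.2) j.1 (hTS j.2) hj
      exact congrArg Prod.fst this
    · refine mk_image_le.trans ((mk_set_le _).trans ?_)
      rw [hT]
      exact hμθ
  have h2 : ∃ u ∈ ((b i.1).1 : Set P), ∀ s ∈ (fun j : T => x (b i.1) (b j.1)) '' {j : T | j < i},
      s ≤ u := by
    apply hc (b i.1) (b i.1).1.nonempty z.2
    · rintro _ ⟨j, hj, rfl⟩
      have hne : b i.1 ≠ b j.1 := fun h => (ne_of_gt hj) (Subtype.ext (hb h))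
      refine ⟨(hx _ _ hne).1, ?_⟩
      have := hhom j.1 (hTS j.2) i.1 (hTS i.2) hj
      exact congrArg Prod.snd this
    · refine mk_image_le.trans ((mk_set_le _).trans ?_)
      rw [hT]
      exact hμθ
  obtain ⟨u, hu, hu'⟩ := h1
  obtain ⟨v, hv, hv'⟩ := h2
  obtain ⟨w, hw, huw, hvw⟩ := (b i.1).1.directed u hu v hv
  refine ⟨w, hw, ?_⟩
  intro j hj hwj
  have hne : b i.1 ≠ b j.1 := fun h => hj (Subtype.ext (hb h)).symm
  rcases lt_or_gt_of_ne hj with h | h
  · have h3 : x (b i.1) (b j.1) ≤ v := hv' _ ⟨j, h, rfl⟩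
    exact (hx _ _ hne).2 ((b j.1).1.lower (h3.trans hvw) hwj)
  · have h3 : x (b i.1) (b j.1) ≤ u := hu' _ ⟨j, h, rfl⟩
    exact (hx _ _ hne).2 ((b j.1).1.lower (h3.trans huw) hwj)

/-- Main theorem, second form: singular `μ`. -/
theorem main2 {μ : Cardinal.{u}} (hs : μ.IsSingular) (hlim : ∀ θ < μ, θ ^< μ ≤ μ)
    (P : Type u) [PartialOrder P] (hP : NoAntichain μ P) :
    NoAntichain (Order.succ (2 ^ μ)) (Order.Ideal P) := by
  intro A hA hcard
  have hμ : ℵ₀ ≤ μ := by
    rcases lt_or_ge μ ℵ₀ with h | h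
    · obtain ⟨n, rfl⟩ := lt_aleph0.1 h
      exact absurd (hs.natCast_lt n) (lt_irrefl _)
    · exact h
  have hμ0 : μ ≠ 0 := ne_of_gt (aleph0_pos.trans_le hμ)
  -- a cofinal set
  obtain ⟨N, hN, hNcard⟩ := Order.exists_cof_eq μ.ord.ToType
  rw [Ordinal.cof_toType] at hNcard
  have hNlt : #N < μ := hNcard ▸ hs.cof_ord_lt
  have hNne : #N ≠ 0 := by
    rw [hNcard]
    intro h
    rw [Ordinal.cof_eq_zero] at h
    rw [ord_eq_zero] at h
    exact hμ0 h
  let m : N → Cardinal.{u} := fun i => #(Iic i.1)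
  have hm0 : ∀ i, m i ≠ 0 := by
    intro i
    simp only [m]
    rw [mk_ne_zero_iff]
    exact ⟨⟨i.1, mem_Iic.2 le_rfl⟩⟩
  have hmlt : ∀ i, m i < μ := by
    intro i
    have h2 : Iic i.1 = insert i.1 (Iio i.1) := by
      ext x
      simp only [mem_Iic, mem_insert_iff, mem_Iio]
      exact le_iff_eq_or_lt
    simp only [m]
    rw [h2]
    refine lt_of_le_of_lt (mk_insert_le) ?_
    exact add_lt_of_lt hμ (mk_Iio_ord_lt μ i.1) (one_lt_aleph0.trans_le hμ)
  have hmsum : μ ≤ Cardinal.sum m := by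
    have h1 : (⋃ i : N, Iic i.1) = (univ : Set μ.ord.ToType) := by
      rw [eq_univ_iff_forall]
      intro x
      obtain ⟨y, hy, hxy⟩ := hN x
      exact mem_iUnion.2 ⟨⟨y, hy⟩, hxy⟩
    have h2 := mk_iUnion_le_sum_mk (f := fun i : N => Iic i.1)
    rw [h1, mk_univ, mk_ord_toType] at h2
    exact h2
  -- colourings
  obtain ⟨D, hD⟩ : ∃ D : Type u, #D = 2 ^ μ := ⟨_, mk_out _⟩
  obtain ⟨K, hK⟩ : ∃ K : Type u, #K = μ := ⟨_, mk_out μ⟩
  have hcol : ∀ J : A, ∃ c : P → D, (J.1 : Set P).Nonempty →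
      ∀ z, BddIn μ (J.1 : Set P) {p ∈ (J.1 : Set P) | c p = z} := fun J =>
    exists_colouring' hμ (cantor μ).le hμ0
      (powerlt_le.2 (fun θ hθ => (Cardinal.power_le_power_left hμ0 hθ.le).trans
        (power_self_eq hμ).le)) hP hD (J.1 : Set P)
  choose c hc using hcol
  have hcol1 : ∀ J : A, ∃ c : P → K, (J.1 : Set P).Nonempty →
      ∀ z, BddIn #N (J.1 : Set P) {p ∈ (J.1 : Set P) | c p = z} := fun J =>
    exists_colouring' hμ le_rfl hNne (hlim _ hNlt) hP hK (J.1 : Set P)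
  choose c1 hc1 using hcol1
  have hcol2 : ∀ (J : A) (k : K) (i : N), ∃ c : P → K,
      ({p ∈ (J.1 : Set P) | c1 J p = k}).Nonempty →
      ∀ z, BddIn (m i) {p ∈ (J.1 : Set P) | c1 J p = k}
        {p ∈ {p ∈ (J.1 : Set P) | c1 J p = k} | c p = z} := fun J k i =>
    exists_colouring' hμ le_rfl (hm0 i) (hlim _ (hmlt i)) hP hK {p ∈ (J.1 : Set P) | c1 J p = k}
  choose c2 hc2 using hcol2
  obtain ⟨x, hx⟩ := exists_diff hA
  -- end-homogeneous sequence
  obtain ⟨b, g, hb, hg⟩ := end_homogeneous (Lam := A) (C := D × K × (N → K)) hμ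
    (by rw [hcard]; exact Order.lt_succ _)
    (by
      have h1 : #(N → K) ≤ 2 ^ μ := by
        calc #(N → K) = #K ^ #N := by simp
          _ = μ ^ #N := by rw [hK]
          _ ≤ μ ^ μ := Cardinal.power_le_power_left hμ0 hNlt.le
          _ = 2 ^ μ := power_self_eq hμ
      have h2 : ℵ₀ ≤ 2 ^ μ := hμ.trans (cantor μ).le
      calc #(D × K × (N → K)) = #D * (#K * #(N → K)) := by rw [mk_prod, mk_prod]; simp
        _ ≤ 2 ^ μ * (2 ^ μ * 2 ^ μ) := by
            refine mul_le_mul' hD.le (mul_le_mul' ?_ h1)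
            rw [hK]
            exact (cantor μ).le
        _ = 2 ^ μ := by rw [mul_eq_self h2, mul_eq_self h2])
    (fun J J' => (c J (x J J'), c1 J' (x J' J), fun i => c2 J' (c1 J' (x J' J)) i (x J' J)))
  -- pigeonhole
  have hreg : (Order.succ μ).ord.cof = Order.succ μ := (isRegular_succ hμ).cof_ord
  obtain ⟨k, hk⟩ := infinite_pigeonhole (fun ζ => (g ζ).2.1)
    (by rw [mk_ord_toType]; exact hμ.trans (Order.le_succ μ))
    (by rw [mk_ord_toType, hreg, hK]; exact Order.lt_succ μ)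
  rw [mk_ord_toType] at hk
  set Z : Set (Order.succ μ).ord.ToType := (fun ζ => (g ζ).2.1) ⁻¹' {k} with hZ
  have hpig : ∀ i : N, ∃ (l : K) (S : Set (Order.succ μ).ord.ToType), S ⊆ Z ∧ #S = m i ∧
      ∀ ζ ∈ S, (g ζ).2.2 i = l := by
    intro i
    obtain ⟨l, hl⟩ := infinite_pigeonhole (fun ζ : Z => (g ζ.1).2.2 i)
      (by rw [hk]; exact hμ.trans (Order.le_succ μ))
      (by rw [hk, hreg, hK]; exact Order.lt_succ μ)
    rw [hk] at hl
    obtain ⟨T, hTS, hT⟩ := Cardinal.le_mk_iff_exists_subset.1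
      (show m i ≤ #((fun ζ : Z => (g ζ.1).2.2 i) ⁻¹' {l}) by
        rw [hl]; exact (hmlt i).le.trans (Order.le_succ μ))
    refine ⟨l, Subtype.val '' T, ?_, ?_, ?_⟩
    · rintro _ ⟨ζ, -, rfl⟩
      exact ζ.2
    · rw [mk_image_eq Subtype.val_injective, hT]
    · rintro _ ⟨ζ, hζ, rfl⟩
      exact hTS hζ
  choose l S hSZ hScard hSl using hpig
  let H : Set (Order.succ μ).ord.ToType := ⋃ i, S i
  have hHcard : #H = μ := by
    apply le_antisymm
    · refine (mk_iUnion_le_sum_mk (f := S)).trans ?_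
      refine (sum_le_sum _ (fun _ => μ) (fun i => ?_)).trans ?_
      · rw [hScard]
        exact (hmlt i).le
      · rw [sum_const, lift_id, lift_id]
        calc #N * μ ≤ μ * μ := mul_le_mul' hNlt.le le_rfl
          _ = μ := mul_eq_self hμ
    · by_contra hcon
      rw [not_le] at hcon
      have h1 : ∀ i, m i ≤ #H := by
        intro i
        rw [← hScard i]
        exact mk_le_mk_of_subset (subset_iUnion S i)
      have h2 : Cardinal.sum m ≤ #N * #H := by
        refine (sum_le_sum _ (fun _ => #H) h1).trans ?_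
        rw [sum_const, lift_id, lift_id]
      exact absurd (hmsum.trans h2) (not_le.2 (mul_lt_of_lt hμ hNlt hcon))
  have hHZ : H ⊆ Z := iUnion_subset hSZ
  refine antichain_of_sep hP hHcard (fun i => (b i.1).1) ?_
  rintro ⟨ζ', hζ'⟩
  -- later elements
  have h1 : ∃ v ∈ ((b ζ').1 : Set P), ∀ s ∈ (fun j : H => x (b ζ') (b j.1)) '' {j : H | ζ' < j.1},
      s ≤ v := by
    apply hc (b ζ') (b ζ').1.nonempty (g ζ').1
    · rintro _ ⟨j, hj, rfl⟩
      have hne : b ζ' ≠ b j.1 := fun h => (ne_of_lt hj) (hb h)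
      refine ⟨(hx _ _ hne).1, ?_⟩
      exact congrArg Prod.fst (hg ζ' j.1 hj)
    · refine mk_image_le.trans ((mk_set_le _).trans ?_)
      rw [hHcard]
  obtain ⟨v, hv, hv'⟩ := h1
  -- earlier elements
  have h2 : ∃ u ∈ ((b ζ').1 : Set P), ∀ ζ ∈ H, ζ < ζ' → x (b ζ') (b ζ) ≤ u := by
    by_cases hE : ∃ ζ ∈ H, ζ < ζ'
    · have hFmem : ∀ ζ ∈ H, ζ < ζ' →
          x (b ζ') (b ζ) ∈ {p ∈ ((b ζ').1 : Set P) | c1 (b ζ') p = k} := by
        intro ζ hζ hlt
        have hne : b ζ' ≠ b ζ := fun h => (ne_of_gt hlt) (hb h)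
        refine ⟨(hx _ _ hne).1, ?_⟩
        have h3 : c1 (b ζ') (x (b ζ') (b ζ)) = (g ζ).2.1 :=
          congrArg (fun t => t.2.1) (hg ζ ζ' hlt)
        rw [h3]
        exact hHZ hζ
      have hFne : ({p ∈ ((b ζ').1 : Set P) | c1 (b ζ') p = k}).Nonempty := by
        obtain ⟨ζ, hζ, hlt⟩ := hE
        exact ⟨_, hFmem ζ hζ hlt⟩
      have h3 : ∀ i : N, ∃ u ∈ {p ∈ ((b ζ').1 : Set P) | c1 (b ζ') p = k},
          ∀ s ∈ (fun ζ => x (b ζ') (b ζ)) '' {ζ ∈ S i | ζ < ζ'}, s ≤ u := by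
        intro i
        apply hc2 (b ζ') k i hFne (l i)
        · rintro _ ⟨ζ, ⟨hζ, hlt⟩, rfl⟩
          have hζH : ζ ∈ H := mem_iUnion.2 ⟨i, hζ⟩
          refine ⟨hFmem ζ hζH hlt, ?_⟩
          have h4 : c1 (b ζ') (x (b ζ') (b ζ)) = k := (hFmem ζ hζH hlt).2
          have h5 : c2 (b ζ') (c1 (b ζ') (x (b ζ') (b ζ))) i (x (b ζ') (b ζ)) = (g ζ).2.2 i :=
            congrArg (fun t => t.2.2 i) (hg ζ ζ' hlt)
          rw [h4] at h5
          rw [h5]
          exact hSl i ζ hζ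
        · refine mk_image_le.trans ((mk_le_mk_of_subset (sep_subset _ _)).trans ?_)
          rw [hScard]
      choose u hu hu' using h3
      obtain ⟨w, hw, hw'⟩ := hc1 (b ζ') (b ζ').1.nonempty k (range u)
        (by rintro _ ⟨i, rfl⟩; exact hu i) mk_range_le
      refine ⟨w, hw, ?_⟩
      intro ζ hζ hlt
      obtain ⟨i, hi⟩ := mem_iUnion.1 hζ
      exact (hu' i _ ⟨ζ, ⟨hi, hlt⟩, rfl⟩).trans (hw' _ ⟨i, rfl⟩)
    · refine ⟨v, hv, ?_⟩
      intro ζ hζ hlt
      exact absurd ⟨ζ, hζ, hlt⟩ hE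
  obtain ⟨u, hu, hu'⟩ := h2
  obtain ⟨w, hw, huw, hvw⟩ := (b ζ').1.directed u hu v hv
  refine ⟨w, hw, ?_⟩
  rintro ⟨ζ, hζ⟩ hne hwj
  have hne' : ζ ≠ ζ' := fun h => hne (Subtype.ext h)
  have hne'' : b ζ' ≠ b ζ := fun h => hne' (hb h).symm
  rcases lt_or_gt_of_ne hne' with h | h
  · exact (hx _ _ hne'').2 ((b ζ).1.lower ((hu' ζ hζ h).trans huw) hwj)
  · have h3 : x (b ζ') (b ζ) ≤ v := hv' _ ⟨⟨ζ, hζ⟩, h, rfl⟩
    exact (hx _ _ hne'').2 ((b ζ).1.lower (h3.trans hvw) hwj)

lemma power_le_of_lt {μ θ σ : Cardinal.{u}} (hμ : ℵ₀ ≤ μ) (h : θ < μ) (h' : σ < μ) :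
    θ ^ σ ≤ 2 ^< μ :=
  calc θ ^ σ ≤ (2 ^ θ) ^ σ := Cardinal.power_le_power_right (cantor θ).le
    _ = 2 ^ (θ * σ) := by rw [← power_mul]
    _ ≤ 2 ^< μ := le_powerlt 2 (mul_lt_of_lt hμ h h')

lemma powerlt_self_le {μ : Cardinal.{u}} (hreg : μ.IsRegular) (h : 2 ^< μ ≤ μ) : μ ^< μ ≤ μ := by
  have hμ : ℵ₀ ≤ μ := hreg.1
  rw [powerlt_le]
  intro σ hσ
  obtain ⟨T, hT⟩ : ∃ T : Type u, #T = σ := ⟨_, mk_out σ⟩
  let M := μ.ord.ToType
  have hbd : ∀ f : T → M, ∃ m : M, ∀ t, f t < m := by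
    intro f
    by_contra hcon
    push Not at hcon
    have hcof : IsCofinal (range f) := by
      intro m
      obtain ⟨t, ht⟩ := hcon m
      exact ⟨f t, ⟨t, rfl⟩, ht⟩
    have h1 := Order.cof_le hcof
    rw [Ordinal.cof_toType, hreg.cof_ord] at h1
    exact absurd (h1.trans (mk_range_le.trans hT.le)) (not_le.2 hσ)
  choose m hm using hbd
  let F : (T → M) → Σ m : M, (T → Iio m) := fun f => ⟨m f, fun t => ⟨f t, hm f t⟩⟩
  have hF : Function.Injective F := by
    intro f f' hff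
    funext t
    have : ∀ (a b : Σ m : M, (T → Iio m)) (_ : a = b), (a.2 t).1 = (b.2 t).1 := by
      rintro a b rfl
      rfl
    exact this _ _ hff
  have h1 : #(T → M) = μ ^ σ := by
    rw [← hT]
    simp [M]
  rw [← h1]
  refine (mk_le_of_injective hF).trans ?_
  rw [mk_sigma]
  refine (sum_le_sum _ (fun _ => μ) (fun m => ?_)).trans ?_
  · have h2 : #(T → Iio m) = #(Iio m) ^ σ := by
      rw [← hT]
      simp
    rw [h2]
    exact (power_le_of_lt hμ (mk_Iio_ord_lt μ m) hσ).trans h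
  · rw [sum_const, lift_id, lift_id, mk_ord_toType, mul_eq_self hμ]

lemma le_two_powerlt (μ : Cardinal.{u}) : μ ≤ 2 ^< μ := by
  by_contra h
  rw [not_le] at h
  exact absurd (le_powerlt 2 h) (not_le.2 (cantor _))

/-- Main theorem for infinite `μ`. -/
theorem bound {μ : Cardinal.{u}} (hμ : ℵ₀ ≤ μ) (P : Type u) [PartialOrder P]
    (hP : NoAntichain μ P) :
    NoAntichain (Order.succ (2 ^ (2 ^< μ))) (Order.Ideal P) := by
  by_cases h : 2 ^< μ ≤ μ
  · have heq : 2 ^< μ = μ := le_antisymm h (le_two_powerlt μ)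
    rcases isRegular_or_isSingular hμ with hr | hs
    · rw [heq]
      exact main1 hμ le_rfl (powerlt_self_le hr h) P hP
    · rw [heq]
      refine main2 hs (fun θ hθ => ?_) P hP
      rw [powerlt_le]
      intro σ hσ
      exact (power_le_of_lt hμ hθ hσ).trans h
  · have h1 : ∃ τ < μ, μ ≤ 2 ^ τ := by
      by_contra hcon
      push Not at hcon
      exact h (powerlt_le.2 (fun τ hτ => (hcon τ hτ).le))
    obtain ⟨τ, hτ, hτ'⟩ := h1
    refine main1 hμ hτ' ?_ P hP
    rw [powerlt_le]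
    intro σ hσ
    rw [← power_mul]
    exact le_powerlt 2 (mul_lt_of_lt hμ hτ hσ)

lemma NoAntichain.mono {μ ν : Cardinal.{u}} (h : μ ≤ ν) {P : Type u} [PartialOrder P]
    (hP : NoAntichain μ P) : NoAntichain ν P := by
  intro s hs hcard
  obtain ⟨t, hts, ht⟩ := Cardinal.le_mk_iff_exists_subset.1 (h.trans hcard.ge)
  exact hP t (hs.subset hts) ht

/-- Main theorem for all `μ`. -/
theorem bound' (μ : Cardinal.{u}) (P : Type u) [PartialOrder P] (hP : NoAntichain μ P) :
    NoAntichain (Order.succ (2 ^ (2 ^< (max μ ℵ₀)))) (Order.Ideal P) :=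
  bound (le_max_right _ _) P (hP.mono (le_max_left _ _))

end Pool.Agent.MP_88803c_co
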